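import Pool.Agent.V1157.KF.Defs

/-!
# Orbits, nilpotency indices, ranks, eigenvalues and group actions for correspondences: definitions
-/

set_option autoImplicit false

open CategoryTheory AlgebraicGeometry

universe u v w

namespace Pool.Agent.V11182.GA

open Pool.Agent.H914 Pool.Agent.H914.VarClass Pool.Agent.H914.VarClass.Obj Pool.Agent.W492.BB

variable {k : Type u} [Field k] {𝒱 : VarClass k} (C : TheoryData.{u, v, 0} 𝒱 ℚ)
  (R : ∀ X : 𝒱.Obj, C.A X → Prop) (A : ∀ X : 𝒱.Obj, C.A (X.prod X) → Prop) (n : ℕ)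

/-- For all varieties `X` of dimension `n`, all self-correspondences `W` in `A X` and all classes `α`
in `R X` the `D + 1` classes `α, W α, …, W ^ D α` are linearly dependent over `ℚ`. -/
def ShortOrbits (D : ℕ) : Prop :=
  ∀ X : 𝒱.Obj, X.dim = n → ∀ W : C.A (X.prod X), A X W → ∀ α : C.A X, R X α →
    ¬ LinearIndependent ℚ (fun j : Fin (D + 1) => (fun β : C.A X => C.act W β)^[(j : ℕ)] α)

/-- For all varieties `X` of dimension `n` and all `W` in `A X`: if `W ^ (D + 1)` acts as zero on
`R X` then so does `W ^ D`. -/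
def NoIndex (D : ℕ) : Prop :=
  ∀ X : 𝒱.Obj, X.dim = n → ∀ W : C.A (X.prod X), A X W →
    (∀ α : C.A X, R X α → (fun β : C.A X => C.act W β)^[D + 1] α = 0) →
    ∀ α : C.A X, R X α → (fun β : C.A X => C.act W β)^[D] α = 0

/-- For all varieties `X` of dimension `n` and all `W` in `A X` any `D + 1` classes `W α`, `α` in
`R X`, are linearly dependent over `ℚ`. -/
def SmallRank (D : ℕ) : Prop :=
  ∀ X : 𝒱.Obj, X.dim = n → ∀ W : C.A (X.prod X), A X W → ∀ α : Fin (D + 1) → C.A X,
    (∀ i, R X (α i)) → ¬ LinearIndependent ℚ (fun i => C.act W (α i))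

/-- For all varieties `X` of dimension `n` no `W` in `A X` has `D + 1` different rational eigenvalues
on `R X`. -/
def FewEigenvalues (D : ℕ) : Prop :=
  ∀ X : 𝒱.Obj, X.dim = n → ∀ W : C.A (X.prod X), A X W → ∀ l : Fin (D + 1) → ℚ,
    Function.Injective l → ¬ ∀ i, ∃ α : C.A X, R X α ∧ α ≠ 0 ∧ C.act W α = l i • α

/-- Every action of the monoid `G` on `R X`, `X` of dimension `n`, by operators `1 + W g` with
`W g` in `A X` is trivial. -/
def TrivialActions (G : Type) [Monoid G] : Prop :=
  ∀ X : 𝒱.Obj, X.dim = n → ∀ W : G → C.A (X.prod X), (∀ g, A X (W g)) →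
    (∀ α : C.A X, R X α → α + C.act (W 1) α = α) →
    (∀ (g h : G) (α : C.A X), R X α → α + C.act (W (g * h)) α =
      (α + C.act (W h) α) + C.act (W g) (α + C.act (W h) α)) →
    ∀ (g : G) (α : C.A X), R X α → α + C.act (W g) α = α

end Pool.Agent.V11182.GA
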