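import Pool.Agent.V11182.GA.Defs
import Pool.Agent.V1157.KF.Height

/-!
# Orbits, nilpotency indices, ranks, eigenvalues and group actions from matrix units
-/

set_option autoImplicit false
set_option linter.unusedSectionVars false

open CategoryTheory AlgebraicGeometry

universe u v w

namespace Pool.Agent.V11182.GA

open Pool.Agent.H914 Pool.Agent.H914.VarClass Pool.Agent.H914.VarClass.Obj Pool.Agent.W492.BB
  Pool.Agent.W550.Corr Pool.Agent.TH133 Pool.Agent.Y148.BB Pool.Agent.V1157.KF
open Pool.Agent.V1157.RC (graph_mem act_smul' push_pull_of)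

variable {k : Type u} [Field k] {𝒱 : VarClass k} {C : TheoryData.{u, v, 0} 𝒱 ℚ}
  [hC : IsChowProj C] {R : ∀ X : 𝒱.Obj, C.A X → Prop} {A : ∀ X : 𝒱.Obj, C.A (X.prod X) → Prop}
  {n : ℕ} {Vn : Prop}

variable {ι : Type} [Fintype ι] [DecidableEq ι] {X : 𝒱.Obj} {M : ι → ι → C.A (X.prod X)}
  {e : ι → C.A X}

/-- The correspondence with the matrix `c`. -/
noncomputable def wm (M : ι → ι → C.A (X.prod X)) (c : Matrix ι ι ℚ) : C.A (X.prod X) :=
  ∑ i, ∑ j, c j i • M i j

/-- A system of matrix units. -/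
structure Units (C : TheoryData.{u, v, 0} 𝒱 ℚ) (R : ∀ X : 𝒱.Obj, C.A X → Prop)
    (A : ∀ X : 𝒱.Obj, C.A (X.prod X) → Prop) (n : ℕ) {ι : Type} [Fintype ι] [DecidableEq ι]
    (X : 𝒱.Obj) (M : ι → ι → C.A (X.prod X)) (e : ι → C.A X) : Prop where
  dim : X.dim = n
  adm : ∀ c : Matrix ι ι ℚ, A X (wm M c)
  comp : ∀ i j k l, ∀ β : C.A X, R X β →
    C.act (M k l) (C.act (M i j) β) = if k = j then C.act (M i l) β else 0
  ker : ∀ i, R X (e i)
  ne : ∀ i, e i ≠ 0
  unit : ∀ i j k, C.act (M i j) (e k) = if k = i then e j else 0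

/-- There are matrix units of all sizes. -/
def AllUnits (C : TheoryData.{u, v, 0} 𝒱 ℚ) (R : ∀ X : 𝒱.Obj, C.A X → Prop)
    (A : ∀ X : 𝒱.Obj, C.A (X.prod X) → Prop) (n : ℕ) : Prop :=
  ∀ (ι : Type) [Fintype ι] [DecidableEq ι], ∃ (X : 𝒱.Obj) (M : ι → ι → C.A (X.prod X))
    (e : ι → C.A X), Units C R A n X M e

/-- The correspondences in `A` act as zero. -/
def Zero (C : TheoryData.{u, v, 0} 𝒱 ℚ) (R : ∀ X : 𝒱.Obj, C.A X → Prop)
    (A : ∀ X : 𝒱.Obj, C.A (X.prod X) → Prop) (n : ℕ) : Prop :=
  ∀ X : 𝒱.Obj, X.dim = n → ∀ W : C.A (X.prod X), A X W → ∀ α : C.A X, R X α → C.act W α = 0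

theorem act_wm (c : Matrix ι ι ℚ) (β : C.A X) :
    C.act (wm M c) β = ∑ i, ∑ j, c j i • C.act (M i j) β := by
  unfold wm
  rw [act_sum]
  refine Finset.sum_congr rfl fun i _ => ?_
  rw [act_sum]
  exact Finset.sum_congr rfl fun j _ => act_smul' _ _ _

theorem act_wm_e (hM : Units C R A n X M e) (c : Matrix ι ι ℚ) (k : ι) :
    C.act (wm M c) (e k) = ∑ j, c j k • e j := by
  rw [act_wm]
  simp only [hM.unit]
  rw [Finset.sum_eq_single k]
  · simp
  · intro i _ hi
    refine Finset.sum_eq_zero fun j _ => ?_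
    rw [if_neg (fun h => hi h.symm), smul_zero]
  · intro h
    exact absurd (Finset.mem_univ k) h

theorem act_wm_add (c d : Matrix ι ι ℚ) (β : C.A X) :
    C.act (wm M (c + d)) β = C.act (wm M c) β + C.act (wm M d) β := by
  simp only [act_wm, Matrix.add_apply, add_smul, Finset.sum_add_distrib]

theorem act_wm_mul (hM : Units C R A n X M e) (c d : Matrix ι ι ℚ) (β : C.A X) (hβ : R X β) :
    C.act (wm M c) (C.act (wm M d) β) = C.act (wm M (c * d)) β := by
  rw [act_wm d β]
  rw [act_map_sum]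
  have h1 : ∀ i, C.act (wm M c) (∑ j, d j i • C.act (M i j) β) =
      ∑ l, (c * d) l i • C.act (M i l) β := by
    intro i
    rw [act_map_sum]
    have h2 : ∀ j, C.act (wm M c) (d j i • C.act (M i j) β) =
        ∑ l, (c l j * d j i) • C.act (M i l) β := by
      intro j
      rw [act_map_smul, act_wm]
      have h3 : ∀ k, ∑ l, c l k • C.act (M k l) (C.act (M i j) β) =
          if k = j then ∑ l, c l k • C.act (M i l) β else 0 := by
        intro k
        split_ifs with hkj
        · exact Finset.sum_congr rfl fun l _ => by rw [hM.comp i j k l β hβ, if_pos hkj]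
        · exact Finset.sum_eq_zero fun l _ => by
            rw [hM.comp i j k l β hβ, if_neg hkj, smul_zero]
      rw [Finset.sum_congr rfl fun k _ => h3 k, Finset.sum_ite_eq' Finset.univ j,
        if_pos (Finset.mem_univ j), Finset.smul_sum]
      refine Finset.sum_congr rfl fun l _ => ?_
      rw [smul_smul, mul_comm]
    rw [Finset.sum_congr rfl fun j _ => h2 j, Finset.sum_comm]
    refine Finset.sum_congr rfl fun l _ => ?_
    rw [Matrix.mul_apply, Finset.sum_smul]
  rw [Finset.sum_congr rfl fun i _ => h1 i, act_wm]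

theorem e_indep (hM : Units C R A n X M e) : LinearIndependent ℚ e := by
  rw [Fintype.linearIndependent_iff]
  intro x hx i
  have h1 := congrArg (C.act (M i i)) hx
  rw [act_map_sum, C.act_map_zero] at h1
  simp only [act_map_smul, hM.unit] at h1
  rw [Finset.sum_eq_single i] at h1
  · rw [if_pos rfl] at h1
    exact (smul_eq_zero.1 h1).resolve_right (hM.ne i)
  · intro j _ hj
    rw [if_neg hj, smul_zero]
  · intro h
    exact absurd (Finset.mem_univ i) h

/-- iterating matrices -/
theorem iter_wm (hM : Units C R A n X M e) (c : Matrix ι ι ℚ) (n : ℕ) (β : C.A X) (hβ : R X β) :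
    (fun β : C.A X => C.act (wm M c) β)^[n + 1] β = C.act (wm M (c ^ (n + 1))) β := by
  induction n with
  | zero => rw [zero_add, Function.iterate_one, pow_one]
  | succ n ih =>
    rw [Function.iterate_succ_apply', ih, pow_succ' c (n + 1)]
    exact act_wm_mul hM _ _ β hβ

theorem iter_zero {W : C.A (X.prod X)} (h : ∀ α : C.A X, R X α → C.act W α = 0) {n : ℕ}
    (hn : 1 ≤ n) {α : C.A X} (hα : R X α) : (fun β : C.A X => C.act W β)^[n] α = 0 := by
  obtain ⟨m, rfl⟩ : ∃ m, n = m + 1 := ⟨n - 1, by omega⟩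
  rw [Function.iterate_succ_apply]
  have h1 : ∀ m : ℕ, (fun β : C.A X => C.act W β)^[m] 0 = 0 := by
    intro m
    induction m with
    | zero => rfl
    | succ m ih => rw [Function.iterate_succ_apply, C.act_map_zero, ih]
  change (fun β : C.A X => C.act W β)^[m] (C.act W α) = 0
  rw [h α hα, h1]

/-- the shift matrix -/
def sh (N : ℕ) : Matrix (Fin N) (Fin N) ℚ := fun j i => if (j : ℕ) = (i : ℕ) + 1 then 1 else 0

theorem sh_pow (N n : ℕ) (j i : Fin N) :
    (sh N ^ n) j i = if (j : ℕ) = (i : ℕ) + n then 1 else 0 := by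
  induction n generalizing j i with
  | zero =>
    rw [pow_zero, add_zero, Matrix.one_apply]
    simp only [Fin.ext_iff]
  | succ n ih =>
    rw [pow_succ, Matrix.mul_apply]
    simp only [ih]
    unfold sh
    by_cases hi : (i : ℕ) + 1 < N
    · rw [Finset.sum_eq_single (⟨(i : ℕ) + 1, hi⟩ : Fin N)]
      · simp only [if_true, mul_one]
        congr 1
        rw [eq_iff_iff]
        constructor <;> intro h <;> omega
      · intro l _ hl
        rw [if_neg (fun h => hl (Fin.ext h)), mul_zero]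
      · intro h
        exact absurd (Finset.mem_univ _) h
    · rw [Finset.sum_eq_zero, if_neg (by have := j.2; omega)]
      intro l _
      have h1 : ¬ ((l : ℕ) = (i : ℕ) + 1) := by have := l.2; omega
      rw [if_neg h1, mul_zero]

theorem iter_sh {N : ℕ} {M : Fin N → Fin N → C.A (X.prod X)} {e : Fin N → C.A X}
    (hM : Units C R A n X M e) (i : Fin N) (n : ℕ) : (fun β : C.A X => C.act (wm M (sh N)) β)^[n] (e i) =
      ∑ j : Fin N, (if (j : ℕ) = (i : ℕ) + n then (1 : ℚ) else 0) • e j := by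
  cases n with
  | zero =>
    rw [Function.iterate_zero_apply, Finset.sum_eq_single i]
    · simp
    · intro j _ hj
      rw [if_neg (fun h => hj (Fin.ext (by simpa using h))), zero_smul]
    · intro h
      exact absurd (Finset.mem_univ i) h
  | succ n =>
    rw [iter_wm hM _ n _ (hM.ker i), act_wm_e hM]
    exact Finset.sum_congr rfl fun j _ => by rw [sh_pow]

theorem shortOrbits_iff (hz : Vn → Zero C R A n) (hu : ¬ Vn → AllUnits C R A n) (D : ℕ)
    (hD : 1 ≤ D) : Vn ↔ ShortOrbits C R A n D := by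
  constructor
  · intro h X hX W hW α hα hli
    have h1 := hli.ne_zero ⟨1, by omega⟩
    exact h1 (iter_zero (fun β hβ => hz h X hX W hW β hβ) le_rfl hα)
  · intro h
    by_contra hb
    obtain ⟨X, M, e, hM⟩ := hu hb (Fin (D + 1))
    refine h X hM.dim (wm M (sh (D + 1))) (hM.adm _) (e 0) (hM.ker 0) ?_
    have h1 : (fun j : Fin (D + 1) => (fun β : C.A X => C.act (wm M (sh (D + 1))) β)^[(j : ℕ)] (e 0)) =
        e := by
      funext j
      rw [iter_sh hM, Finset.sum_eq_single j]
      · simp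
      · intro l _ hl
        rw [if_neg (fun h => hl (Fin.ext (by simpa using h))), zero_smul]
      · intro h
        exact absurd (Finset.mem_univ j) h
    rw [h1]
    exact e_indep hM

theorem noIndex_iff (hz : Vn → Zero C R A n) (hu : ¬ Vn → AllUnits C R A n) (D : ℕ)
    (hD : 1 ≤ D) : Vn ↔ NoIndex C R A n D := by
  constructor
  · intro h X hX W hW _ α hα
    exact iter_zero (fun β hβ => hz h X hX W hW β hβ) hD hα
  · intro h
    by_contra hb
    obtain ⟨X, M, e, hM⟩ := hu hb (Fin (D + 1))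
    have h0 := h X hM.dim (wm M (sh (D + 1))) (hM.adm _) (fun α hα => by
      rw [iter_wm hM _ D α hα, act_wm]
      refine Finset.sum_eq_zero fun i _ => Finset.sum_eq_zero fun j _ => ?_
      rw [sh_pow, if_neg (by have := j.2; omega), zero_smul]) (e 0) (hM.ker 0)
    rw [iter_sh hM, Finset.sum_eq_single (Fin.last D)] at h0
    · rw [if_pos (by simp), one_smul] at h0
      exact hM.ne _ h0
    · intro l _ hl
      rw [if_neg (fun h => hl (Fin.ext (by simpa using h))), zero_smul]
    · intro h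
      exact absurd (Finset.mem_univ _) h

theorem smallRank_iff (hz : Vn → Zero C R A n) (hu : ¬ Vn → AllUnits C R A n) (D : ℕ) :
    Vn ↔ SmallRank C R A n D := by
  constructor
  · intro h X hX W hW α hα hli
    exact hli.ne_zero 0 (hz h X hX W hW _ (hα 0))
  · intro h
    by_contra hb
    obtain ⟨X, M, e, hM⟩ := hu hb (Fin (D + 1))
    refine h X hM.dim (wm M 1) (hM.adm _) e hM.ker ?_
    have h1 : (fun i => C.act (wm M 1) (e i)) = e := by
      funext i
      rw [act_wm_e hM, Finset.sum_eq_single i]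
      · rw [Matrix.one_apply_eq, one_smul]
      · intro j _ hj
        rw [Matrix.one_apply_ne hj, zero_smul]
      · intro h
        exact absurd (Finset.mem_univ i) h
    rw [h1]
    exact e_indep hM

theorem fewEigenvalues_iff (hz : Vn → Zero C R A n) (hu : ¬ Vn → AllUnits C R A n) (D : ℕ)
    (hD : 1 ≤ D) : Vn ↔ FewEigenvalues C R A n D := by
  constructor
  · intro h X hX W hW l hl hev
    have h1 : ∀ i, l i = 0 := by
      intro i
      obtain ⟨α, hα, hne, hact⟩ := hev i
      rw [hz h X hX W hW α hα] at hact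
      exact (smul_eq_zero.1 hact.symm).resolve_right hne
    have h2 : (0 : Fin (D + 1)) = ⟨1, by omega⟩ := hl (by rw [h1, h1])
    simpa using congrArg Fin.val h2
  · intro h
    by_contra hb
    obtain ⟨X, M, e, hM⟩ := hu hb (Fin (D + 1))
    refine h X hM.dim (wm M (Matrix.diagonal fun i : Fin (D + 1) => ((i : ℕ) : ℚ))) (hM.adm _)
      (fun i => ((i : ℕ) : ℚ)) (fun i j hij => Fin.ext (by
        have h1 : ((i : ℕ) : ℚ) = ((j : ℕ) : ℚ) := hij
        exact_mod_cast h1)) fun i =>
        ⟨e i, hM.ker i, hM.ne i, ?_⟩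
    rw [act_wm_e hM, Finset.sum_eq_single i]
    · rw [Matrix.diagonal_apply_eq]
    · intro j _ hj
      rw [Matrix.diagonal_apply_ne _ hj, zero_smul]
    · intro h
      exact absurd (Finset.mem_univ i) h

theorem trivialActions_of (hz : Vn → Zero C R A n) (h : Vn) (G : Type) [Monoid G] :
    TrivialActions C R A n G := by
  intro X hX W hW _ _ g α hα
  rw [hz h X hX (W g) (hW g) α hα, add_zero]

theorem of_trivialActions (hu : ¬ Vn → AllUnits C R A n)
    (G : Type) [Monoid G] (ι : Type) [Fintype ι] [DecidableEq ι] (ρ : G →* Matrix ι ι ℚ)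
    (g : G) (hg : ρ g ≠ 1) (h : TrivialActions C R A n G) : Vn := by
  by_contra hb
  obtain ⟨X, M, e, hM⟩ := hu hb ι
  have hsub : ∀ (c d : Matrix ι ι ℚ) (β : C.A X), C.act (wm M (c - d)) β + C.act (wm M d) β =
      C.act (wm M c) β := by
    intro c d β
    rw [← act_wm_add, sub_add_cancel]
  have h0 : ∀ β : C.A X, C.act (wm M (0 : Matrix ι ι ℚ)) β = 0 := by
    intro β
    rw [act_wm]
    exact Finset.sum_eq_zero fun i _ => Finset.sum_eq_zero fun j _ => by
      rw [Matrix.zero_apply, zero_smul]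
  have key := h X hM.dim (fun g => wm M (ρ g - 1)) (fun g => hM.adm _)
    (fun α _ => by rw [map_one, sub_self, h0, add_zero])
    (fun a b α hα => by
      rw [act_map_add, act_wm_mul hM _ _ α hα, map_mul]
      have e1 : ρ a * ρ b - 1 = (ρ b - 1) + ((ρ a - 1) + (ρ a - 1) * (ρ b - 1)) := by
        noncomm_ring
      rw [e1, act_wm_add, act_wm_add, add_assoc]) g
  apply hg
  ext j i
  have h1 := key (e i) (hM.ker i)
  rw [act_wm_e hM] at h1
  have h2 : ∑ l, (ρ g - 1) l i • e l = 0 := by
    have := congrArg (fun x => x - e i) h1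
    simpa using this
  have h3 := Fintype.linearIndependent_iff.1 (e_indep hM) _ h2 j
  rw [Matrix.sub_apply, sub_eq_zero] at h3
  exact h3

/-- the regular representation of a finite group -/
noncomputable def reg (G : Type) [Group G] [Fintype G] [DecidableEq G] : G →* Matrix G G ℚ where
  toFun g := fun i j => if i = g * j then 1 else 0
  map_one' := by
    ext i j
    rw [Matrix.one_apply, one_mul]
  map_mul' g h := by
    ext i j
    rw [Matrix.mul_apply, Finset.sum_eq_single (h * j)]
    · simp [mul_assoc]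
    · intro l _ hl
      rw [if_neg hl, mul_zero]
    · intro h
      exact absurd (Finset.mem_univ _) h

theorem reg_ne (G : Type) [Group G] [Fintype G] [DecidableEq G] {g : G} (hg : g ≠ 1) :
    reg G g ≠ 1 := by
  intro h
  have h1 := congrFun (congrFun h g) 1
  rw [Matrix.one_apply_ne hg] at h1
  change (if g = g * 1 then (1 : ℚ) else 0) = 0 at h1
  rw [mul_one, if_pos rfl] at h1
  exact one_ne_zero h1


/-- **All the equivalences.** -/
theorem main (hz : Vn → Zero C R A n) (hu : ¬ Vn → AllUnits C R A n) :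
    (∀ D : ℕ, 1 ≤ D → (Vn ↔ ShortOrbits C R A n D)) ∧
    (∀ D : ℕ, 1 ≤ D → (Vn ↔ NoIndex C R A n D)) ∧
    (∀ D : ℕ, (Vn ↔ SmallRank C R A n D)) ∧
    (∀ D : ℕ, 1 ≤ D → (Vn ↔ FewEigenvalues C R A n D)) ∧
    (∀ (G : Type) [Monoid G] (N : ℕ) (ρ : G →* Matrix (Fin N) (Fin N) ℚ) (g : G), ρ g ≠ 1 →
      (Vn ↔ TrivialActions C R A n G)) ∧
    (∀ (G : Type) [Group G] [Finite G] [Nontrivial G], Vn ↔ TrivialActions C R A n G) := by
  classical
  refine ⟨fun D hD => shortOrbits_iff hz hu D hD, fun D hD => noIndex_iff hz hu D hD,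
    fun D => smallRank_iff hz hu D, fun D hD => fewEigenvalues_iff hz hu D hD, ?_, ?_⟩
  · intro G _ N ρ g hg
    exact ⟨fun h => trivialActions_of hz h G, of_trivialActions hu G (Fin N) ρ g hg⟩
  · intro G _ _ _
    have : Fintype G := Fintype.ofFinite G
    obtain ⟨g, hg⟩ := exists_ne (1 : G)
    exact ⟨fun h => trivialActions_of hz h G, of_trivialActions hu G G (reg G) g (reg_ne G hg)⟩

/-- The matrix units on the complete intersection `V` in `S ^ N`. -/
theorem units_of {K : Type w} [Field K] {H : WeilTheoryData.{u, v, w} C K} [hH : IsWeilProj H]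
    {m : ℕ} (hR : ∀ {X : 𝒱.Obj} {x : C.A X}, R X x → HomTriv H m x)
    (hpull : ∀ {X Y : 𝒱.Obj} (f : X ⟶ Y) {y : C.A Y}, X.dim = n → Y.dim = n → R Y y →
      R X (C.pull f y))
    (hpush : ∀ {X Y : 𝒱.Obj} (f : X ⟶ Y) {x : C.A X}, X.dim = n → Y.dim = n → R X x →
      R Y (C.push f x)) {S : 𝒱.Obj} {x : C.A S} (hS : S.dim = n) (hx : R S x) (hx0 : x ≠ 0)
    (hP : ∀ N : ℕ, HasPower C n N S)
    (hA : ∀ (V : 𝒱.Obj) (ι : Type) [Fintype ι] (p : ι → (V ⟶ S)) (c : ι → ι → ℚ), V.dim = n →
      A V (∑ i, ∑ j, c i j • mt C (p i) (p j))) : AllUnits C R A n := by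
  intro ι _ _
  obtain ⟨V, p', a, c, κ, h⟩ := exists_pw hS (hP (Fintype.card ι))
  have hκ := h.hκ
  set p : ι → (V ⟶ S) := fun i => p' (Fintype.equivFin ι i) with hpdef
  have hp : ∀ i, C.push (p i) 1 = κ • (1 : C.A S) := fun i => h.pp _ (Fin.is_lt _)
  have hne : ∀ i j, i ≠ j → ∀ y : C.A S, R S y → C.push (p j) (C.pull (p i) y) = 0 := by
    intro i j hij y hy
    refine h.push_pull_ne H (Fin.is_lt _) (Fin.is_lt _) (fun e => hij ?_) (hR hy)
    exact (Fintype.equivFin ι).injective (Fin.ext e)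
  set t : ℚ := κ⁻¹ with ht
  have hκt : κ * t = 1 := mul_inv_cancel₀ hκ
  have hact : ∀ i j (β : C.A V), C.act (t • mt C (p i) (p j)) β =
      t • C.pull (p j) (C.push (p i) β) := by
    intro i j β
    rw [act_smul', act_mt]
  have hcomp : ∀ i j k l, ∀ β : C.A V, R V β →
      C.act (t • mt C (p k) (p l)) (C.act (t • mt C (p i) (p j)) β) =
        if k = j then C.act (t • mt C (p i) (p l)) β else 0 := by
    intro i j k l β hβ
    have h1 := hpush (p i) h.dimV hS hβ
    rw [hact, hact i j, map_smul, map_smul]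
    split_ifs with hkj
    · subst hkj
      rw [push_pull_of (hp k), hact i l, map_smul, smul_smul, smul_smul, mul_assoc, mul_comm t κ, hκt, mul_one]
    · rw [hne j k (fun e => hkj e.symm) _ h1, map_zero, smul_zero, smul_zero]
  have hunit : ∀ i j, C.act (t • mt C (p i) (p j)) (C.pull (p i) x) = C.pull (p j) x := by
    intro i j
    rw [hact, push_pull_of (hp i), map_smul, smul_smul, mul_comm t κ, hκt, one_smul]
  refine ⟨V, fun i j => t • mt C (p i) (p j), fun i => C.pull (p i) x, h.dimV, fun c => ?_, hcomp,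
    fun i => hpull (p i) h.dimV hS hx, fun i h0 => ?_, fun i j l => ?_⟩
  · have h1 := hA V ι p (fun i j => c j i * t) h.dimV
    unfold wm
    simpa only [smul_smul] using h1
  · have h4 := push_pull_of (hp i) x
    rw [h0, map_zero] at h4
    exact hx0 ((smul_eq_zero.1 h4.symm).resolve_left hκ)
  · split_ifs with hki
    · subst hki
      exact hunit l j
    · rw [← hunit l l, hcomp l l i j _ (hpull (p l) h.dimV hS hx), if_neg (fun e => hki e.symm)]

end Pool.Agent.V11182.GA
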